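import Pool.Agent.Lib.MP_9ff3e7_ag.F.LeviGlue

/-! An anisotropic logarithmic pole with compact support in two groups of variables:
`log (E₁ + E₂ - E₁ E₂)`, `E₁ = e n (|a|² + δ)`, `E₂ = e k (|b|² + δ)`. Scalar part. -/

set_option autoImplicit false
set_option linter.unusedSectionVars false

namespace Pool.Agent.Lib.MP_5c318e_ag.Lo

open Complex Filter Topology
open scoped ContDiff ComplexConjugate
open Pool.Agent.Lib.MP_9ff3e7_ag.F

variable {ι : Type} [Fintype ι]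

/-- `log (e^u + e^v - e^u e^v)` for `u, v ≤ 0` -/
theorem levi_log_or {u v : (ι → ℂ) → ℝ} {x ξ : ι → ℂ} (hu : ContDiffAt ℝ 2 u x)
    (hv : ContDiffAt ℝ 2 v x) (u0 : u x ≤ 0) (v0 : v x ≤ 0) {a b : ℝ} (ha : 0 ≤ a) (hb : 0 ≤ b)
    (h1 : -a ≤ levi u x ξ) (h2 : -b ≤ levi v x ξ)
    (h3 : Real.exp (u x) * ‖dbar (fun y => (u y : ℂ)) x ξ‖ ^ 2 ≤ a)
    (h4 : Real.exp (v x) * ‖dbar (fun y => (v y : ℂ)) x ξ‖ ^ 2 ≤ b) :
    -(2 * (a + b)) ≤ levi (fun y => Real.log (Real.exp (u y) + Real.exp (v y) -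
      Real.exp (u y + v y))) x ξ := by
  have du := hu.differentiableAt (by norm_num)
  have dv := hv.differentiableAt (by norm_num)
  have e1 : Real.exp (u x) ≤ 1 := Real.exp_le_one_iff.2 u0
  have e2 : Real.exp (v x) ≤ 1 := Real.exp_le_one_iff.2 v0
  have p1 := Real.exp_pos (u x)
  have p2 := Real.exp_pos (v x)
  have hO : 0 < Real.exp (u x) + Real.exp (v x) - Real.exp (u x + v x) := by
    rw [Real.exp_add]; nlinarith
  have huv : ContDiffAt ℝ 2 (fun y => u y + v y) x := hu.add hv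
  have duv : DifferentiableAt ℝ (fun y => u y + v y) x := du.add dv
  have hd : dbar (fun y => ((u y + v y : ℝ) : ℂ)) x ξ =
      dbar (fun y => (u y : ℂ)) x ξ + dbar (fun y => (v y : ℂ)) x ξ := by
    simp only [ofReal_add]
    exact dbar_add (diffAt_ofReal du) (diffAt_ofReal dv) ξ
  have hD : dbar (fun y => ((Real.exp (u y) + Real.exp (v y) - Real.exp (u y + v y) : ℝ) : ℂ)) x ξ =
      (Real.exp (u x) : ℝ) * dbar (fun y => (u y : ℂ)) x ξ +
        (Real.exp (v x) : ℝ) * dbar (fun y => (v y : ℂ)) x ξ -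
        (Real.exp (u x + v x) : ℝ) *
          (dbar (fun y => (u y : ℂ)) x ξ + dbar (fun y => (v y : ℂ)) x ξ) := by
    simp only [ofReal_sub, ofReal_add]
    rw [dbar_sub ((diffAt_ofReal du.exp).fun_add (diffAt_ofReal dv.exp)) (diffAt_ofReal duv.exp),
      dbar_add (diffAt_ofReal du.exp) (diffAt_ofReal dv.exp), dbar_exp du, dbar_exp dv,
      dbar_exp duv, hd]
  rw [levi_log ((hu.exp.add hv.exp).sub huv.exp) hO.ne', hD,
    levi_sub (hu.exp.add hv.exp) huv.exp, levi_add hu.exp hv.exp, levi_exp hu, levi_exp hv,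
    levi_exp huv, levi_add hu hv, hd]
  rw [Real.exp_add] at hO ⊢
  generalize dbar (fun y => (u y : ℂ)) x ξ = X at *
  generalize dbar (fun y => (v y : ℂ)) x ξ = Y at *
  generalize Real.exp (u x) = E at *
  generalize Real.exp (v x) = G at *
  generalize levi u x ξ = l at *
  generalize levi v x ξ = m at *
  have n1 : ‖X + Y‖ ^ 2 ≤ 2 * ‖X‖ ^ 2 + 2 * ‖Y‖ ^ 2 := by
    have := norm_add_le X Y
    nlinarith [norm_nonneg (X + Y), norm_nonneg X, norm_nonneg Y, sq_nonneg (‖X‖ - ‖Y‖)]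
  have hP : 0 ≤ E * (1 - G) := by nlinarith
  have hQ : 0 ≤ G * (1 - E) := by nlinarith
  have n2 : ‖(E : ℂ) * X + (G : ℂ) * Y - ((E * G : ℝ) : ℂ) * (X + Y)‖ ≤
      E * (1 - G) * ‖X‖ + G * (1 - E) * ‖Y‖ := by
    have : (E : ℂ) * X + (G : ℂ) * Y - ((E * G : ℝ) : ℂ) * (X + Y) =
        ((E * (1 - G) : ℝ) : ℂ) * X + ((G * (1 - E) : ℝ) : ℂ) * Y := by
      push_cast; ring
    rw [this]
    refine (norm_add_le _ _).trans (le_of_eq ?_)
    rw [norm_mul, norm_mul, norm_real, norm_real, Real.norm_of_nonneg hP, Real.norm_of_nonneg hQ]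
  have n3 : ‖(E : ℂ) * X + (G : ℂ) * Y - ((E * G : ℝ) : ℂ) * (X + Y)‖ ^ 2 ≤
      (E + G - E * G) * (E * (1 - G) * ‖X‖ ^ 2 + G * (1 - E) * ‖Y‖ ^ 2) := by
    refine (pow_le_pow_left₀ (norm_nonneg _) n2 2).trans ?_
    generalize hP' : E * (1 - G) = P at *
    generalize hQ' : G * (1 - E) = Q at *
    have hR : P + Q ≤ E + G - E * G := by nlinarith [mul_pos p1 p2]
    have h5 : (P * ‖X‖ + Q * ‖Y‖) ^ 2 ≤ (P + Q) * (P * ‖X‖ ^ 2 + Q * ‖Y‖ ^ 2) := by
      nlinarith [mul_nonneg (mul_nonneg hP hQ) (sq_nonneg (‖X‖ - ‖Y‖))]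
    exact h5.trans (mul_le_mul_of_nonneg_right hR (by positivity))
  have n4 : ‖(E : ℂ) * X + (G : ℂ) * Y - ((E * G : ℝ) : ℂ) * (X + Y)‖ ^ 2 / (E + G - E * G) ^ 2 ≤
      (E * (1 - G) * ‖X‖ ^ 2 + G * (1 - E) * ‖Y‖ ^ 2) / (E + G - E * G) := by
    rw [div_le_div_iff₀ (by positivity) hO]
    nlinarith [mul_le_mul_of_nonneg_right n3 hO.le]
  refine le_trans ?_ (sub_le_sub_left n4 _)
  rw [← sub_div, le_div_iff₀ hO]
  have k1 : E * (1 - G) * (-a) ≤ E * (1 - G) * l := mul_le_mul_of_nonneg_left h1 hP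
  have k2 : G * (1 - E) * (-b) ≤ G * (1 - E) * m := mul_le_mul_of_nonneg_left h2 hQ
  have k3 : E * G * ‖X + Y‖ ^ 2 ≤ E * G * (2 * ‖X‖ ^ 2 + 2 * ‖Y‖ ^ 2) :=
    mul_le_mul_of_nonneg_left n1 (by positivity)
  have k4 : G * (E * ‖X‖ ^ 2) ≤ G * a := mul_le_mul_of_nonneg_left h3 p2.le
  have k5 : E * (G * ‖Y‖ ^ 2) ≤ E * b := mul_le_mul_of_nonneg_left h4 p1.le
  have k6 : 0 ≤ a * G := mul_nonneg ha p2.le
  have k7 : 0 ≤ b * E := mul_nonneg hb p1.le
  have k8 : 0 ≤ a * (E * (1 - G)) := mul_nonneg ha hP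
  have k9 : 0 ≤ b * (G * (1 - E)) := mul_nonneg hb hQ
  nlinarith

/-- a ramp with bounded second derivative -/
theorem exists_ramp' : ∃ (r : ℝ → ℝ) (M : ℝ), 0 < M ∧ ContDiff ℝ ∞ r ∧ Monotone r ∧
    (∀ t, t ≤ 1 → r t = 0) ∧ (∀ t, 0 ≤ r t) ∧ (∀ t, 0 ≤ deriv r t) ∧
    (∀ t, 2 < t → deriv (deriv r) t = 0) ∧ (∀ t, deriv (deriv r) t ≤ M) ∧
    (∀ t, deriv r t ^ 2 ≤ 2 * M * r t) ∧ ∀ t, t - 2 ≤ r t := by
  obtain ⟨r, c, z, r0, d0, -, -, d1, -, -, k, -, k2, -, k4⟩ := exists_ramp (a := 1) (b := 2) one_lt_two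
  have c1 : ContDiff ℝ ∞ (deriv r) := (contDiff_infty_iff_deriv.1 c).2
  have c2 : ContDiff ℝ ∞ (deriv (deriv r)) := (contDiff_infty_iff_deriv.1 c1).2
  have dr : Differentiable ℝ r := c.differentiable (by simp)
  have dd : Differentiable ℝ (deriv r) := c1.differentiable (by simp)
  have z1 : ∀ t, t < 1 → deriv r t = 0 := fun t ht => by
    have : r =ᶠ[𝓝 t] fun _ => 0 := (eventually_lt_nhds ht).mono fun u hu => z u hu.le
    rw [this.deriv_eq, deriv_const]
  have z2 : ∀ t, t < 1 → deriv (deriv r) t = 0 := fun t ht => by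
    have : deriv r =ᶠ[𝓝 t] fun _ => 0 := (eventually_lt_nhds ht).mono fun u hu => z1 u hu
    rw [this.deriv_eq, deriv_const]
  have z3 : ∀ t, 2 < t → deriv (deriv r) t = 0 := fun t ht => by
    have : deriv r =ᶠ[𝓝 t] fun _ => 1 := (eventually_gt_nhds ht).mono fun u hu => d1 u hu.le
    rw [this.deriv_eq, deriv_const]
  obtain ⟨M, hM⟩ := (isCompact_Icc (a := (1 : ℝ)) (b := 2)).exists_bound_of_continuousOn
    c2.continuous.continuousOn
  have hM' : ∀ t, deriv (deriv r) t ≤ max M 1 := fun t => by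
    by_cases h : t ∈ Set.Icc (1 : ℝ) 2
    · exact ((le_abs_self _).trans (hM t h)).trans (le_max_left _ _)
    · rw [Set.mem_Icc, not_and_or, not_le, not_le] at h
      rcases h with h | h
      · rw [z2 t h]; positivity
      · rw [z3 t h]; positivity
  refine ⟨r, max M 1, by positivity, c, monotone_of_deriv_nonneg dr d0, z, r0, d0, z3, hM', ?_,
    fun t => by linarith [k4 t]⟩
  generalize max M 1 = K at hM'
  have hd : ∀ t, HasDerivAt (fun t => 2 * K * r t - deriv r t ^ 2)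
      (2 * deriv r t * (K - deriv (deriv r) t)) t := fun t => by
    refine (((dr t).hasDerivAt.const_mul (2 * K)).sub ((dd t).hasDerivAt.fun_pow 2)).congr_deriv ?_
    norm_num
    ring
  have mono : Monotone fun t => 2 * K * r t - deriv r t ^ 2 :=
    monotone_of_deriv_nonneg (fun t => (hd t).differentiableAt) fun t => by
      rw [(hd t).deriv]
      exact mul_nonneg (mul_nonneg two_pos.le (d0 t)) (sub_nonneg.2 (hM' t))
  intro t
  rcases le_total t 0 with h | h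
  · rw [z1 t (by linarith), z t (by linarith)]; simp
  · have := mono h
    simp only [z1 0 one_pos, z 0 zero_le_one] at this
    linarith

/-- the one variable profile: `u n s = - n r (- log s)` -/
theorem exists_profile : ∃ (g : ℝ → ℝ) (C : ℝ), 0 < C ∧ (∀ s, 0 < s → ContDiffAt ℝ ∞ g s) ∧
    (∀ s, g s ≤ 0) ∧ (∀ s, 1 / 2 ≤ s → g s = 0) ∧ (∀ s t, 0 < s → s ≤ t → g s ≤ g t) ∧
    (∀ s, 0 < s → g s ≤ Real.log s + 2) ∧
    ∀ {ι : Type} [Fintype ι] {A : (ι → ℂ) → ℝ} {x ξ : ι → ℂ} {n : ℝ}, 2 ≤ n →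
      ContDiffAt ℝ 2 A x → 0 < A x → 0 ≤ levi A x ξ →
      ‖dbar (fun y => (A y : ℂ)) x ξ‖ ^ 2 ≤ A x * levi A x ξ →
      -(C * n * levi A x ξ) ≤ levi (fun y => n * g (A y)) x ξ ∧
        Real.exp (n * g (A x)) * ‖dbar (fun y => ((n * g (A y) : ℝ) : ℂ)) x ξ‖ ^ 2 ≤
          C * n * levi A x ξ := by
  obtain ⟨r, M, hM, c, mo, z, r0, d0, z3, dM, dq, lo⟩ := exists_ramp'
  refine ⟨fun s => -r (-Real.log s), 4 * M * Real.exp 2, by positivity, fun s hs => ?_,
    fun s => neg_nonpos.2 (r0 _), fun s hs => ?_, fun s t hs h => ?_, fun s _ => ?_, ?_⟩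
  · exact (c.contDiffAt.comp s (Real.contDiffAt_log.2 hs.ne').neg).neg
  · show -r _ = 0
    rw [z, neg_zero]
    have h1 : Real.log (1 / 2) ≤ Real.log s := Real.log_le_log (by norm_num) hs
    rw [one_div, Real.log_inv] at h1
    linarith [Real.log_two_lt_d9]
  · exact neg_le_neg (mo (neg_le_neg (Real.log_le_log hs h)))
  · linarith [lo (-Real.log s)]
  intro ι _ A x ξ n hn hA A0 l0 hq
  beta_reduce
  have dA := hA.differentiableAt (by norm_num)
  have hL : ContDiffAt ℝ 2 (fun y => -Real.log (A y)) x := (hA.log A0.ne').neg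
  have dL := hL.differentiableAt (by norm_num)
  have c2 : ContDiffAt ℝ 2 r (-Real.log (A x)) := c.contDiffAt.of_le (by norm_cast)
  have hR : ContDiffAt ℝ 2 (fun y => r (-Real.log (A y))) x := ContDiffAt.comp (g := r) x c2 hL
  have q1 : ‖dbar (fun y => ((-Real.log (A y) : ℝ) : ℂ)) x ξ‖ ^ 2 ≤ levi A x ξ / A x := by
    simp only [ofReal_neg]
    rw [dbar_neg, norm_neg, dbar_log dA A0.ne', norm_div, div_pow, norm_real, Real.norm_eq_abs,
      sq_abs, div_le_div_iff₀ (by positivity) A0]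
    nlinarith
  have q2 : levi (fun y => -Real.log (A y)) x ξ ≤ 0 := by
    rw [levi_neg (hA.log A0.ne'), levi_log hA A0.ne', neg_nonpos, sub_nonneg,
      div_le_div_iff₀ (by positivity) A0]
    nlinarith
  have q3 : (A x)⁻¹ = Real.exp (-Real.log (A x)) := by rw [Real.exp_neg, Real.exp_log A0]
  have e2 := Real.exp_pos 2
  constructor
  · rw [levi_const_mul n hR.neg, levi_neg hR, levi_comp_real c2 hL]
    have k1 : deriv r (-Real.log (A x)) * levi (fun y => -Real.log (A y)) x ξ ≤ 0 :=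
      mul_nonpos_of_nonneg_of_nonpos (d0 _) q2
    have k2 : deriv (deriv r) (-Real.log (A x)) *
        ‖dbar (fun y => ((-Real.log (A y) : ℝ) : ℂ)) x ξ‖ ^ 2 ≤ M * Real.exp 2 * levi A x ξ := by
      rcases lt_or_ge 2 (-Real.log (A x)) with h | h
      · rw [z3 _ h, zero_mul]; positivity
      · refine (mul_le_mul (dM _) q1 (by positivity) hM.le).trans ?_
        rw [div_eq_mul_inv, q3, mul_assoc, mul_comm (Real.exp 2)]
        gcongr
    have k3 : 0 ≤ M * Real.exp 2 * levi A x ξ := by positivity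
    nlinarith
  · have e : dbar (fun y => ((n * -r (-Real.log (A y)) : ℝ) : ℂ)) x ξ =
        ((-n * deriv r (-Real.log (A x)) : ℝ) : ℂ) *
          dbar (fun y => ((-Real.log (A y) : ℝ) : ℂ)) x ξ := by
      rw [dbar_comp_real (χ := fun t => n * -r t) (φ := fun y => -Real.log (A y))
        ((c2.differentiableAt (by norm_num)).neg.const_mul n) dL]
      congr 2
      rw [deriv_const_mul _ (c2.differentiableAt (by norm_num)).fun_neg, deriv.fun_neg]
      ring
    rw [e, norm_mul, mul_pow, norm_real, Real.norm_eq_abs, sq_abs]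
    generalize ht : -Real.log (A x) = t at *
    have k1 : Real.exp t ≤ Real.exp 2 * Real.exp (r t) := by
      rw [← Real.exp_add]; exact Real.exp_le_exp.2 (by linarith [lo t])
    have k2 : (n - 1) * r t * Real.exp (-((n - 1) * r t)) ≤ 1 := by
      rw [Real.exp_neg, ← div_eq_mul_inv, div_le_one (Real.exp_pos _)]
      linarith [Real.add_one_le_exp ((n - 1) * r t)]
    have k3 : Real.exp (n * -r t) * Real.exp (r t) = Real.exp (-((n - 1) * r t)) := by
      rw [← Real.exp_add]; congr 1; ring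
    have k4 : n * r t * Real.exp (-((n - 1) * r t)) ≤ 2 := by
      have : 0 ≤ r t * Real.exp (-((n - 1) * r t)) := mul_nonneg (r0 t) (Real.exp_pos _).le
      nlinarith
    have r0' := r0 t
    calc Real.exp (n * -r t) * ((-n * deriv r t) ^ 2 *
          ‖dbar (fun y => ((-Real.log (A y) : ℝ) : ℂ)) x ξ‖ ^ 2)
        ≤ Real.exp (n * -r t) * ((n ^ 2 * (2 * M * r t)) *
          (levi A x ξ * (Real.exp 2 * Real.exp (r t)))) := by
          refine mul_le_mul_of_nonneg_left (mul_le_mul ?_ ?_ (by positivity) (by positivity))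
            (Real.exp_pos _).le
          · rw [mul_pow, neg_sq]
            exact mul_le_mul_of_nonneg_left (dq t) (by positivity)
          · refine q1.trans ?_
            rw [div_eq_mul_inv, q3]
            exact mul_le_mul_of_nonneg_left k1 l0
      _ = (n * r t * Real.exp (-((n - 1) * r t))) * (2 * M * Real.exp 2 * n * levi A x ξ) := by
          rw [← k3]; ring
      _ ≤ 2 * (2 * M * Real.exp 2 * n * levi A x ξ) :=
          mul_le_mul_of_nonneg_right k4 (by positivity)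
      _ = _ := by ring

end Pool.Agent.Lib.MP_5c318e_ag.Lo
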